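import Mathlib
import Pool.Agent.TH419.HX.Hall

/-!
# MP_9d7cd1_nt: Hall's conjecture for all integral points whose abscissa is a sparse S-unit sum

Let `S` be a finite set of primes. An integer `x` is called sparse here if
`x = a 0 * u 0 + ... + a k * u k` with positive integers `u i` all of whose prime factors are in
`S` and integers `a i` of absolute value at most `M`, `a 0 ≠ 0`, and if the first term dominates:
`u i ≤ (u 0) ^ (1 - η)` for `i ≠ 0`. For instance, in an arbitrary fixed base: a leading block of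
bounded length, a proportional gap, and then boundedly many further nonzero digits or bounded
blocks of digits, in arbitrary positions.

1. For all `S`, `k`, `H`, `η > 0`, `ε > 0` there is `C` such that for ALL integers `y` and all
   sparse `x` (with `M = H`): if `d = y ^ 2 - x ^ 3 ≠ 0`, then
   `log |x| < (2 + ε) log |d| + C`, the inequality of Hall.

2. More generally, for all exponents `p, q ≥ 1`: if `y ^ q ≠ x ^ p`, then
   `max (|x| ^ p, |y| ^ q) ^ (1 - 1 / p - 1 / q - ε) ≤ (K M) ^ K |y ^ q - x ^ p|`, where the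
   coefficients `a i` may be large and `a 0` is of the form `a 0 ^ p = e * h ^ q` with bounded `e`.

The integer `y` is arbitrary. The proof: if `|y ^ q - x ^ p|` is small, the binomial expansion
of `x ^ (p / q)` at the dominating term and the `S`-adic subspace theorem (with moving coefficients)
show that a small multiple of `y` is a sum of boundedly many `S`-units as well; then the inequality
of Hall for pairs of `S`-unit sums (`Pool.Agent.TH551.HA`) applies.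
-/

set_option autoImplicit false

namespace Pool.Agent.Results.MP_9d7cd1_nt.SparseAbscissa

/-- `x` is the sum of the `a i * u i`, where the `u i` are positive integers with all prime factors
in `S`, the first one dominates, and the `a i` are integers of absolute value at most `M` -/
def Sparse (S : Finset ℕ) (k : ℕ) (η M : ℝ) (u : Fin (k + 1) → ℕ) (a : Fin (k + 1) → ℤ)
    (x : ℤ) : Prop :=
  (∀ i, u i ≠ 0 ∧ (u i).primeFactors ⊆ S) ∧
  (∀ i, i ≠ 0 → (u i : ℝ) ≤ (u 0 : ℝ) ^ (1 - η)) ∧ a 0 ≠ 0 ∧ (∀ i, |(a i : ℝ)| ≤ M) ∧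
  x = ∑ i, a i * (u i : ℤ)

theorem general (p q k H : ℕ) (hp : 1 ≤ p) (hq : 1 ≤ q) (S : Finset ℕ) (η ε : ℝ) (hη : 0 < η)
    (hε : 0 < ε) :
    ∃ K : ℝ, 0 < K ∧ ∀ M : ℝ, 1 ≤ M → ∀ (u : Fin (k + 1) → ℕ) (a : Fin (k + 1) → ℤ) (x : ℤ),
      Sparse S k η M u a x → (∃ e h : ℤ, a 0 ^ p = e * h ^ q ∧ |e| ≤ H) →
      ∀ y : ℤ, y ^ q ≠ x ^ p →
      (max (|(x : ℝ)| ^ p) (|(y : ℝ)| ^ q)) ^ (1 - 1 / (p : ℝ) - 1 / (q : ℝ) - ε) ≤
        (K * M) ^ K * |(y : ℝ) ^ q - (x : ℝ) ^ p| := by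
  obtain ⟨K, hK, h⟩ := Pool.Agent.TH419.HX.hallX p q k H hp hq (S.filter Nat.Prime)
    (fun p hp => (Finset.mem_filter.1 hp).2) η ε hη hε
  refine ⟨K, hK, ?_⟩
  rintro M hM u a x ⟨h1, h2, h3, h4, h5⟩ ⟨e, f, h6, h7⟩ y hy
  refine h M hM u a (fun i => ⟨(h1 i).1, fun p hp => ?_⟩) h2 h3 h4 e f h6 h7 x y h5 hy
  exact Finset.mem_filter.2 ⟨(h1 i).2 hp, Nat.prime_of_mem_primeFactors hp⟩

theorem result :
    (∀ (S : Finset ℕ) (k H : ℕ) (η ε : ℝ), 0 < η → 0 < ε → ∃ C : ℝ, ∀ d x y : ℤ, d ≠ 0 →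
      y ^ 2 = x ^ 3 + d → (∃ u a, Sparse S k η H u a x) →
      Real.log |(x : ℝ)| < (2 + ε) * Real.log |(d : ℝ)| + C) ∧
    (∀ (p q k H : ℕ), 1 ≤ p → 1 ≤ q → ∀ (S : Finset ℕ) (η ε : ℝ), 0 < η → 0 < ε →
      ∃ K : ℝ, 0 < K ∧ ∀ M : ℝ, 1 ≤ M → ∀ (u : Fin (k + 1) → ℕ) (a : Fin (k + 1) → ℤ) (x : ℤ),
        Sparse S k η M u a x → (∃ e h : ℤ, a 0 ^ p = e * h ^ q ∧ |e| ≤ H) →
        ∀ y : ℤ, y ^ q ≠ x ^ p →
        (max (|(x : ℝ)| ^ p) (|(y : ℝ)| ^ q)) ^ (1 - 1 / (p : ℝ) - 1 / (q : ℝ) - ε) ≤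
          (K * M) ^ K * |(y : ℝ) ^ q - (x : ℝ) ^ p|) := by
  refine ⟨?_, fun p q k H hp hq S η ε hη hε => general p q k H hp hq S η ε hη hε⟩
  intro S k H η ε hη hε
  obtain ⟨δ, hδ⟩ : ∃ δ : ℝ, δ = (1 / 2 - 1 / (2 + ε)) / 3 := ⟨_, rfl⟩
  have hδ0 : 0 < δ := by
    rw [hδ]
    have h1 : 1 / (2 + ε) < 1 / 2 := one_div_lt_one_div_of_lt (by norm_num) (by linarith)
    linarith
  obtain ⟨K, hK, h⟩ := general 3 2 k (H ^ 3) (by norm_num) (by norm_num) S η δ hη hδ0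
  obtain ⟨B, hB⟩ : ∃ B : ℝ, B = (K * max (H : ℝ) 1) ^ K := ⟨_, rfl⟩
  have hM1 : (1 : ℝ) ≤ max (H : ℝ) 1 := le_max_right _ _
  have hB0 : 0 < B := by rw [hB]; positivity
  refine ⟨(2 + ε) * |Real.log B| + 1, ?_⟩
  rintro d x y hd hxy ⟨u, a, hS⟩
  have hd1 : (1 : ℝ) ≤ |(d : ℝ)| := by
    have : 1 ≤ |d| := Int.one_le_abs hd
    exact_mod_cast this
  have hlogd : 0 ≤ Real.log |(d : ℝ)| := Real.log_nonneg hd1
  have hpos : 0 ≤ (2 + ε) * |Real.log B| := by positivity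
  by_cases hx : x = 0
  · rw [hx, Int.cast_zero, abs_zero, Real.log_zero]
    nlinarith
  have hx1 : (1 : ℝ) ≤ |(x : ℝ)| := by
    have : 1 ≤ |x| := Int.one_le_abs hx
    exact_mod_cast this
  have hx0 : 0 < |(x : ℝ)| := by linarith
  have haH : |(a 0 : ℝ)| ≤ H := hS.2.2.2.1 0
  have h1 := h (max (H : ℝ) 1) hM1 u a x
    ⟨hS.1, hS.2.1, hS.2.2.1, fun i => (hS.2.2.2.1 i).trans (le_max_left _ _), hS.2.2.2.2⟩
    ⟨a 0 ^ 3, 1, by ring, by
      rw [abs_pow]
      have h2 : |a 0| ≤ H := by exact_mod_cast haH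
      push_cast
      exact pow_le_pow_left₀ (abs_nonneg _) h2 3⟩ y (by
      rw [hxy]
      intro h2
      apply hd
      linarith)
  have h2 : (y : ℝ) ^ 2 - (x : ℝ) ^ 3 = d := by
    have h3 : ((y ^ 2 : ℤ) : ℝ) = ((x ^ 3 + d : ℤ) : ℝ) := by rw [hxy]
    push_cast at h3
    linarith
  rw [h2, ← hB] at h1
  have hexp : 1 - 1 / ((3 : ℕ) : ℝ) - 1 / ((2 : ℕ) : ℝ) - δ = 1 / (3 * (2 + ε)) := by
    rw [hδ]
    have : (2 : ℝ) + ε ≠ 0 := by positivity
    push_cast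
    field_simp
    ring
  rw [hexp] at h1
  have h3 : |(x : ℝ)| ^ (1 / (2 + ε)) ≤ B * |(d : ℝ)| := by
    refine le_trans ?_ h1
    calc |(x : ℝ)| ^ (1 / (2 + ε)) = (|(x : ℝ)| ^ 3) ^ (1 / (3 * (2 + ε))) := by
          rw [← Real.rpow_natCast, ← Real.rpow_mul hx0.le]
          congr 1
          have : (2 : ℝ) + ε ≠ 0 := by positivity
          push_cast
          field_simp
      _ ≤ _ := Real.rpow_le_rpow (by positivity) (le_max_left _ _) (by positivity)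
  have h4 := Real.log_le_log (by positivity) h3
  rw [Real.log_rpow hx0, Real.log_mul hB0.ne' (by positivity)] at h4
  have h5 : Real.log |(x : ℝ)| ≤ (2 + ε) * (Real.log B + Real.log |(d : ℝ)|) := by
    have h6 : 0 < 2 + ε := by positivity
    have h7 : Real.log |(x : ℝ)| = (2 + ε) * (1 / (2 + ε) * Real.log |(x : ℝ)|) := by
      field_simp
    rw [h7]
    exact mul_le_mul_of_nonneg_left h4 h6.le
  have h6 : (2 + ε) * Real.log B ≤ (2 + ε) * |Real.log B| :=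
    mul_le_mul_of_nonneg_left (le_abs_self _) (by positivity)
  nlinarith

end Pool.Agent.Results.MP_9d7cd1_nt.SparseAbscissa
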